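import Pool.Agent.Helper99.ZZ.Zig

set_option autoImplicit false

open Finset
open Pool.Agent.Helper98.Saw hiding iv
open Pool.Agent.Helper92.Eps
open Pool.Agent.Helper22.SB (PathOn Cnt seg)
open Pool.Agent.Helper99.ZZ

namespace Pool.Agent.Helper57.ZZ

/-- the depth at a corner, as a function of the two heights -/
def dep (w t h1 h2 : ℕ) : ℕ :=
  if min w (min h1 h2 - t - 1) = 0 then 0
  else 2 ^ Nat.log 2 (min w (min h1 h2 - t - 1))

lemma key (w t h1 h2 : ℕ) (hw : 1 ≤ w) (h : 2 * dep w t h1 h2 < w) :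
    ∃ m ≤ Nat.log 2 (2 * w), lsr w (dep w t h1 h2) ≤ Real.sqrt 2 * Real.sqrt ((w : ℝ) / 2 ^ m) ∧
      (h1 ≤ t + 2 ^ m ∨ h2 ≤ t + 2 ^ m) := by
  have hwR : (1 : ℝ) ≤ w := by exact_mod_cast hw
  unfold lsr
  rw [if_pos h]
  unfold dep at h ⊢
  by_cases h0 : min w (min h1 h2 - t - 1) = 0
  · rw [if_pos h0]
    refine ⟨0, Nat.zero_le _, ?_, ?_⟩
    · rw [pow_zero, div_one]
      have e1 : ((max 0 1 : ℕ) : ℝ) = 1 := by norm_num
      rw [e1, div_one, ← Real.sqrt_eq_rpow]
      have h2 : (1 : ℝ) ≤ Real.sqrt 2 := by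
        rw [show (1 : ℝ) = Real.sqrt 1 by simp]
        exact Real.sqrt_le_sqrt (by norm_num)
      have h3 : 0 ≤ Real.sqrt (w : ℝ) := Real.sqrt_nonneg _
      nlinarith
    · rw [pow_zero]
      omega
  · rw [if_neg h0] at h ⊢
    set y := min w (min h1 h2 - t - 1) with hy
    have hlt : y < 2 ^ (Nat.log 2 y + 1) := Nat.lt_pow_succ_log_self (by norm_num) y
    have hle : 2 ^ Nat.log 2 y ≤ y := Nat.pow_log_le_self 2 h0
    have hps : 2 ^ (Nat.log 2 y + 1) = 2 * 2 ^ Nat.log 2 y := by ring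
    refine ⟨Nat.log 2 y + 1, ?_, ?_, ?_⟩
    · refine Nat.le_log_of_pow_le (by norm_num) ?_
      rw [hps]
      have : y ≤ w := min_le_left _ _
      omega
    · have e1 : ((max (2 ^ Nat.log 2 y) 1 : ℕ) : ℝ) = 2 ^ Nat.log 2 y := by
        rw [max_eq_left (Nat.one_le_two_pow)]
        push_cast
        ring
      rw [e1, ← Real.sqrt_eq_rpow, ← Real.sqrt_mul (by norm_num)]
      refine Real.sqrt_le_sqrt (le_of_eq ?_)
      rw [pow_succ]
      field_simp
    · have : y = min h1 h2 - t - 1 := by omega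
      omega

lemma lsr_le (w t h1 h2 : ℕ) (hw : 1 ≤ w) :
    lsr w (dep w t h1 h2) ≤ ∑ m ∈ range (Nat.log 2 (2 * w) + 1), Real.sqrt 2 *
      (Real.sqrt ((w : ℝ) / 2 ^ m) * ((if h1 ≤ t + 2 ^ m then 1 else 0) +
        (if h2 ≤ t + 2 ^ m then 1 else 0))) := by
  have hn : ∀ m ∈ range (Nat.log 2 (2 * w) + 1), 0 ≤ Real.sqrt 2 *
      (Real.sqrt ((w : ℝ) / 2 ^ m) * ((if h1 ≤ t + 2 ^ m then 1 else 0) +
        (if h2 ≤ t + 2 ^ m then 1 else 0))) := by
    intro m _
    refine mul_nonneg (Real.sqrt_nonneg _) (mul_nonneg (Real.sqrt_nonneg _) ?_)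
    split_ifs <;> norm_num
  by_cases h : 2 * dep w t h1 h2 < w
  · obtain ⟨m, hm, hl, hor⟩ := key w t h1 h2 hw h
    refine hl.trans (le_trans ?_ (Finset.single_le_sum hn (mem_range.2 (Nat.lt_succ_of_le hm))))
    refine mul_le_mul_of_nonneg_left ?_ (Real.sqrt_nonneg _)
    have h1' : (1 : ℝ) ≤ (if h1 ≤ t + 2 ^ m then 1 else 0) + (if h2 ≤ t + 2 ^ m then 1 else 0) := by
      rcases hor with h' | h'
      · rw [if_pos h']
        split_ifs <;> norm_num
      · rw [if_pos h']
        split_ifs <;> norm_num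
    have := mul_le_mul_of_nonneg_left h1' (Real.sqrt_nonneg ((w : ℝ) / 2 ^ m))
    linarith
  · unfold lsr
    rw [if_neg h]
    exact Finset.sum_nonneg hn

theorem ZIG (hLEGS : LEGS_stmt) (hSTEPS : STEPS_stmt) (hZQ : ZQ_stmt) : ZIG_stmt := by
  intro γ n t0 w c hw hwt ht0 hP hC
  obtain ⟨anti, cnt, legs⟩ := hLEGS γ n hP
  have hNc : NT γ n t0 ≤ c n := cnt t0 c (by omega) hC
  have hex : ∀ t : ℕ, ∃ (K : ℕ) (up : Bool) (τ : ℕ → ℕ) (q : ℕ → ℕ),
      (∀ r, q r + 2 * NT γ n (t + r + 1) ≤ 2 * NT γ n t) ∧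
      (2 ≤ t → ZG γ n t K up τ ∧ K ≤ NT γ n t + 1 ∧ Z1e γ n t K up τ ∧
        (2 ≤ K → ∀ r, q r = ((range K).filter (fun j => hg γ τ j ≤ t + r)).card)) := by
    intro t
    by_cases ht : 2 ≤ t
    · obtain ⟨a, K, z, up, τ, hG, hK, hr, hd⟩ := legs t ht
      have hZ := hSTEPS γ n t a K z up τ hP ht hG hd
      by_cases hK2 : 2 ≤ K
      · exact ⟨K, up, τ, fun r => ((range K).filter (fun j => hg γ τ j ≤ t + r)).card,
          fun r => hr r hK2, fun _ => ⟨hG, hK, hZ, fun _ _ => rfl⟩⟩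
      · refine ⟨K, up, τ, fun _ => 0, fun r => ?_, fun _ => ⟨hG, hK, hZ, fun h => absurd h hK2⟩⟩
        have := anti (show t ≤ t + r + 1 by omega)
        simp only [zero_add]
        omega
    · refine ⟨0, true, fun _ => 0, fun _ => 0, fun r => ?_, fun h => absurd h ht⟩
      have := anti (show t ≤ t + r + 1 by omega)
      simp only [zero_add]
      omega
  choose K up τ q hq hQ using hex
  obtain ⟨t, h1, h2, h3⟩ := hZQ (NT γ n) q anti hq w t0 (Nat.log 2 (2 * w)) (by omega)
    (Nat.pow_log_le_self 2 (by omega))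
  obtain ⟨hG, hK, hZ, hqq⟩ := hQ t (by omega)
  refine ⟨t, K t, up t, τ t, h1, h2, hG, ?_, ?_, hZ⟩
  · have := anti h1
    omega
  · by_cases hK2 : 2 ≤ K t
    · set M := Nat.log 2 (2 * w) with hM
      have hs : ∑ j ∈ range (K t - 1), lsr w (rj γ (τ t) t w j) ≤
          2 * Real.sqrt 2 * ∑ m ∈ range (M + 1), Real.sqrt ((w : ℝ) / 2 ^ m) * q t (2 ^ m) := by
        calc ∑ j ∈ range (K t - 1), lsr w (rj γ (τ t) t w j)
            ≤ ∑ j ∈ range (K t - 1), ∑ m ∈ range (M + 1), Real.sqrt 2 *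
              (Real.sqrt ((w : ℝ) / 2 ^ m) * ((if hg γ (τ t) j ≤ t + 2 ^ m then 1 else 0) +
                (if hg γ (τ t) (j + 1) ≤ t + 2 ^ m then 1 else 0))) := by
              refine Finset.sum_le_sum fun j _ => ?_
              exact lsr_le w t (hg γ (τ t) j) (hg γ (τ t) (j + 1)) hw
          _ = ∑ m ∈ range (M + 1), ∑ j ∈ range (K t - 1), Real.sqrt 2 *
              (Real.sqrt ((w : ℝ) / 2 ^ m) * ((if hg γ (τ t) j ≤ t + 2 ^ m then 1 else 0) +
                (if hg γ (τ t) (j + 1) ≤ t + 2 ^ m then 1 else 0))) := Finset.sum_comm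
          _ ≤ ∑ m ∈ range (M + 1), 2 * Real.sqrt 2 * (Real.sqrt ((w : ℝ) / 2 ^ m) * q t (2 ^ m)) := by
              refine Finset.sum_le_sum fun m _ => ?_
              rw [← Finset.mul_sum, ← Finset.mul_sum, Finset.sum_add_distrib]
              have e1 : ∑ j ∈ range (K t - 1), (if hg γ (τ t) j ≤ t + 2 ^ m then (1 : ℝ) else 0) ≤
                  q t (2 ^ m) := by
                rw [hqq hK2, Finset.sum_boole]
                have : ((range (K t - 1)).filter (fun j => hg γ (τ t) j ≤ t + 2 ^ m)).card ≤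
                    ((range (K t)).filter (fun j => hg γ (τ t) j ≤ t + 2 ^ m)).card :=
                  Finset.card_le_card (Finset.filter_subset_filter _
                    (Finset.range_subset_range.2 (Nat.sub_le _ _)))
                exact_mod_cast this
              have e2 : ∑ j ∈ range (K t - 1), (if hg γ (τ t) (j + 1) ≤ t + 2 ^ m then (1 : ℝ) else 0) ≤
                  q t (2 ^ m) := by
                rw [hqq hK2, Finset.sum_boole]
                have : ((range (K t - 1)).filter (fun j => hg γ (τ t) (j + 1) ≤ t + 2 ^ m)).card ≤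
                    ((range (K t)).filter (fun j => hg γ (τ t) j ≤ t + 2 ^ m)).card := by
                  refine Finset.card_le_card_of_injOn (fun j => j + 1) ?_ ?_
                  · intro j hj
                    have hj' := Finset.mem_filter.1 (Finset.mem_coe.1 hj)
                    refine Finset.mem_coe.2 (Finset.mem_filter.2 ⟨mem_range.2 ?_, hj'.2⟩)
                    have := mem_range.1 hj'.1
                    change j + 1 < K t
                    omega
                  · intro i _ j _ hij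
                    exact Nat.succ_injective hij
                exact_mod_cast this
              have hp : 0 ≤ Real.sqrt 2 * Real.sqrt ((w : ℝ) / 2 ^ m) :=
                mul_nonneg (Real.sqrt_nonneg _) (Real.sqrt_nonneg _)
              have := mul_le_mul_of_nonneg_left (add_le_add e1 e2) hp
              linarith
          _ = 2 * Real.sqrt 2 * ∑ m ∈ range (M + 1), Real.sqrt ((w : ℝ) / 2 ^ m) * q t (2 ^ m) := by
              rw [Finset.mul_sum]
      set S := ∑ m ∈ range (M + 1), Real.sqrt ((w : ℝ) / 2 ^ m) * q t (2 ^ m) with hS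
      have ht0R : (0 : ℝ) ≤ t0 := Nat.cast_nonneg _
      have h4 := mul_le_mul_of_nonneg_left hs ht0R
      have h5 : Real.sqrt 2 ≤ 3 / 2 := by
        rw [Real.sqrt_le_left (by norm_num)]
        norm_num
      have hS0 : 0 ≤ S * t0 := by
        refine mul_nonneg (Finset.sum_nonneg fun m _ => ?_) ht0R
        exact mul_nonneg (Real.sqrt_nonneg _) (Nat.cast_nonneg _)
      have h6 : (NT γ n t0 : ℝ) ≤ c n := by exact_mod_cast hNc
      have hwR : (0 : ℝ) ≤ w := Nat.cast_nonneg _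
      have h7 : (w : ℝ) * NT γ n t0 ≤ w * c n := mul_le_mul_of_nonneg_left h6 hwR
      have h8 : Real.sqrt 2 * (S * t0) ≤ 3 / 2 * (S * t0) := mul_le_mul_of_nonneg_right h5 hS0
      calc (t0 : ℝ) * ∑ j ∈ range (K t - 1), lsr w (rj γ (τ t) t w j)
          ≤ (t0 : ℝ) * (2 * Real.sqrt 2 * S) := h4
        _ = 2 * (Real.sqrt 2 * (S * t0)) := by ring
        _ ≤ 2 * (3 / 2 * (S * t0)) := by linarith
        _ ≤ 3 * (20 * w * NT γ n t0) := by linarith
        _ ≤ 60 * w * c n := by linarith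
    · have : K t - 1 = 0 := by omega
      rw [this]
      simp only [range_zero, sum_empty, mul_zero]
      positivity

end Pool.Agent.Helper57.ZZ
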